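import Mathlib
import Pool.Agent.R208.BeamOsc
import Pool.Agent.R208.BeamNum
import Pool.Agent.R208.BeamAngle
import Pool.Agent.R208.BeamWave

/-!
# At most five even one-troughed travelling waves in the asymmetric beam model

For every `c ∈ (0, √2)` and every `ξ ∈ (0, c⁴/4)` the problem
`z'''' + c² z'' + (z+1)⁺ - ξ (z+1)⁻ - 1 = 0`, `z, z' → 0` at `±∞`,
has at most five even solutions for which `{z = -1}` consists of exactly two points.
-/

set_option autoImplicit false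

open Real Set Filter Topology
open Pool.Agent.R208.Beam

namespace Pool.Agent.Results.MP_d3e990_an.AtMostFive

/-- `z` is a solution of the problem `(∗)`: a `C⁴` function with
`z'''' + c² z'' + (z+1)⁺ - ξ (z+1)⁻ - 1 = 0` on the line (`x⁺ = max x 0`, `x⁻ = max (-x) 0`) and
`z(t), z'(t) → 0` as `t → +∞` and as `t → -∞`. -/
structure IsWave (c ξ : ℝ) (z : ℝ → ℝ) : Prop where
  smooth : ContDiff ℝ 4 z
  eqn : ∀ t, iteratedDeriv 4 z t + c ^ 2 * iteratedDeriv 2 z t + max (z t + 1) 0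
    - ξ * max (-(z t + 1)) 0 - 1 = 0
  top : Tendsto z atTop (𝓝 0)
  top' : Tendsto (deriv z) atTop (𝓝 0)
  bot : Tendsto z atBot (𝓝 0)
  bot' : Tendsto (deriv z) atBot (𝓝 0)

/-- `z` is an even one-troughed wave: an even solution of `(∗)` such that the set `{t | z t = -1}`
consists of exactly two points. -/
structure IsEvenOneTroughed (c ξ : ℝ) (z : ℝ → ℝ) : Prop where
  wave : IsWave c ξ z
  even : ∀ t, z (-t) = z t
  two : {t : ℝ | z t = -1}.ncard = 2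

lemma exists_T {z : ℝ → ℝ} (he : ∀ t, z (-t) = z t) (h2 : {t : ℝ | z t = -1}.ncard = 2) :
    ∃ T, 0 < T ∧ ∀ x, z x = -1 ↔ x = T ∨ x = -T := by
  obtain ⟨a, b, hab, hS⟩ := Set.ncard_eq_two.mp h2
  have hmem : ∀ x, z x = -1 ↔ x = a ∨ x = b := by
    intro x
    have : x ∈ {t : ℝ | z t = -1} ↔ x ∈ ({a, b} : Set ℝ) := by rw [hS]
    simpa using this
  have hb : z b = -1 := (hmem b).mpr (Or.inr rfl)
  have ha : z a = -1 := (hmem a).mpr (Or.inl rfl)
  have hna : -a = a ∨ -a = b := (hmem (-a)).mp (by rw [he]; exact ha)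
  have hnb : -b = a ∨ -b = b := (hmem (-b)).mp (by rw [he]; exact hb)
  have hba : b = -a := by
    rcases hna with h | h
    · have ha0 : a = 0 := by linarith
      rcases hnb with h' | h'
      · exact absurd (by linarith : a = b) hab
      · exact absurd (by linarith : a = b) hab
    · exact h.symm
  have ha0 : a ≠ 0 := by
    intro h
    apply hab
    rw [hba, h, neg_zero]
  rcases lt_or_gt_of_ne ha0 with h | h
  · refine ⟨-a, by linarith, fun x => ?_⟩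
    rw [hmem x, hba, neg_neg]; exact or_comm
  · refine ⟨a, h, fun x => ?_⟩
    rw [hmem x, hba]

lemma exists_Wv {c ξ : ℝ} {z : ℝ → ℝ} (h : IsEvenOneTroughed c ξ z) :
    ∃ T, Wv c ξ T z (iteratedDeriv 1 z) (iteratedDeriv 2 z) (iteratedDeriv 3 z)
      (iteratedDeriv 4 z) := by
  obtain ⟨T, hT, hz⟩ := exists_T h.even h.two
  have hd : ∀ k : ℕ, k < 4 → ∀ x, HasDerivAt (iteratedDeriv k z) (iteratedDeriv (k + 1) z x) x := by
    intro k hk x
    rw [iteratedDeriv_succ]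
    have := h.wave.smooth.differentiable_iteratedDeriv k (by exact_mod_cast hk)
    exact (this x).hasDerivAt
  refine ⟨T, ⟨?_, hd 1 (by norm_num), hd 2 (by norm_num), hd 3 (by norm_num), h.wave.eqn,
    h.wave.top, ?_, h.even, hT, hz⟩⟩
  · have := hd 0 (by norm_num)
    rw [iteratedDeriv_zero] at this
    exact this
  · rw [iteratedDeriv_one]; exact h.wave.top'

lemma exists_par {c : ℝ} (h0 : 0 < c) (h2 : c < √2) : ∃ α β, Par c α β := by
  have hc2 : c ^ 2 < 2 := by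
    have h : (√2 : ℝ) ^ 2 = 2 := Real.sq_sqrt (by norm_num)
    nlinarith
  set α : ℝ := √((2 - c ^ 2) / 4) with hα
  have hα2 : α ^ 2 = (2 - c ^ 2) / 4 := Real.sq_sqrt (by linarith)
  have hα0 : 0 < α := Real.sqrt_pos.mpr (by linarith)
  set β : ℝ := √(1 - α ^ 2) with hβ
  have hc3 : 0 < c ^ 2 := by positivity
  have hβ2 : β ^ 2 = 1 - α ^ 2 := Real.sq_sqrt (by rw [hα2]; linarith)
  have hβ0 : 0 < β := Real.sqrt_pos.mpr (by rw [hα2]; linarith)
  exact ⟨α, β, h0, hα0, hβ0, by rw [hβ2]; ring, by rw [hα2]; ring⟩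

lemma exists_fr {c ξ : ℝ} (h0 : 0 < c) (hξ : 0 < ξ) (hξ2 : ξ < c ^ 4 / 4) :
    ∃ ω₁ ω₂, Fr c ξ ω₁ ω₂ := by
  set D : ℝ := √(c ^ 4 - 4 * ξ) with hD
  have hD2 : D ^ 2 = c ^ 4 - 4 * ξ := Real.sq_sqrt (by linarith)
  have hD0 : 0 < D := Real.sqrt_pos.mpr (by linarith)
  have hDc : D < c ^ 2 := by
    have : D ^ 2 < (c ^ 2) ^ 2 := by rw [hD2]; nlinarith
    exact lt_of_pow_lt_pow_left₀ 2 (by positivity) this
  set w1 : ℝ := √((c ^ 2 - D) / 2) with hw1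
  set w2 : ℝ := √((c ^ 2 + D) / 2) with hw2
  have e1 : w1 ^ 2 = (c ^ 2 - D) / 2 := Real.sq_sqrt (by linarith)
  have e2 : w2 ^ 2 = (c ^ 2 + D) / 2 := Real.sq_sqrt (by linarith)
  have p1 : 0 < w1 := Real.sqrt_pos.mpr (by linarith)
  have p2 : 0 < w2 := Real.sqrt_pos.mpr (by linarith)
  refine ⟨w1, w2, p1, ?_, ?_, ?_⟩
  · exact lt_of_pow_lt_pow_left₀ 2 p2.le (by rw [e1, e2]; linarith)
  · rw [e1, e2]; ring
  · rw [e1, e2]; nlinarith

/-- **At most five.** For every `c ∈ (0, √2)` and every `ξ ∈ (0, c⁴/4)` there are at most five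
even one-troughed waves. -/
theorem result : ∀ c ξ : ℝ, 0 < c → c < √2 → 0 < ξ → ξ < c ^ 4 / 4 →
    {z : ℝ → ℝ | IsEvenOneTroughed c ξ z}.encard ≤ 5 := by
  intro c ξ h0 h2 hξ hξ2
  obtain ⟨α, β, P⟩ := exists_par h0 h2
  obtain ⟨ω₁, ω₂, F⟩ := exists_fr h0 hξ hξ2
  have key : ∀ z : ℝ → ℝ, ∃ k : ℤ, IsEvenOneTroughed c ξ z → (k ∈ Icc (1:ℤ) 5 ∧
      ∃ s, 0 ≤ s ∧ H α ω₁ ω₂ s = k * π ∧ z = Zp ξ α β ω₁ ω₂ s) := by
    intro z
    by_cases hz : IsEvenOneTroughed c ξ z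
    · obtain ⟨T, W⟩ := exists_Wv hz
      obtain ⟨k, hk, h⟩ := W.final P F
      exact ⟨k, fun _ => ⟨hk, h⟩⟩
    · exact ⟨0, fun h => absurd h hz⟩
  choose K hK using key
  have hmaps : MapsTo K {z : ℝ → ℝ | IsEvenOneTroughed c ξ z} (Icc (1:ℤ) 5) :=
    fun z hz => (hK z hz).1
  have hinj : InjOn K {z : ℝ → ℝ | IsEvenOneTroughed c ξ z} := by
    intro z₁ h₁ z₂ h₂ h
    obtain ⟨-, s₁, p₁, e₁, q₁⟩ := hK z₁ h₁
    obtain ⟨-, s₂, p₂, e₂, q₂⟩ := hK z₂ h₂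
    have : H α ω₁ ω₂ s₁ = H α ω₁ ω₂ s₂ := by rw [e₁, e₂, h]
    have hs : s₁ = s₂ := (H_strictMono F.p1 F.lt).injOn p₁ p₂ this
    rw [q₁, q₂, hs]
  have h5 := Set.encard_le_encard_of_injOn hmaps hinj
  have h6 : (Icc (1:ℤ) 5).encard = 5 := by
    have : Icc (1:ℤ) 5 = ((Finset.Icc (1:ℤ) 5 : Finset ℤ) : Set ℤ) := by simp
    rw [this, Set.encard_coe_eq_coe_finsetCard]
    simp
  rw [h6] at h5
  exact h5

end Pool.Agent.Results.MP_d3e990_an.AtMostFive
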